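import Mathlib
import Pool.Agent.MP_ed3b92_lc.CaMain

open Pool.Agent.MP_ed3b92_lc

theorem Pool.Agent.Results.MP_ed3b92_lc.CacheDLDD.result :
    ∃ C : ℕ, ∀ n k s : ℕ, C * (Nat.log 2 n + 1) ≤ k → k ≤ s → s ≤ n →
      ∃ F : Fm n, F.size * k ^ 2 ≤ C * s * n ^ 2 * (Nat.log 2 n + 1) ^ 3 ∧
        ∀ (m : ℕ) (P : DD n m) (par : Fin m → Fin m × Bool), P.Valid → P.ComputesN F.eval →
          P.CallTree par → 2 ^ (n - k) ≤ m ∨ ∃ w, 2 ^ (s - k) ≤ P.hits par w :=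
  ⟨10 ^ 10, ca_main⟩
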