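import Mathlib
import Pool.Agent.Mg.Fed3b92.Gb169fc

open Pool.Agent.MP_ed3b92_lc

theorem Pool.Agent.Results.MP_ed3b92_lc.CubicParity.result :
    ∃ C : ℕ, ∀ n k : ℕ, C * (Nat.log 2 n + 1) ≤ k → k ^ 2 ≤ n →
      ∃ F : Fm n, F.size * k ^ 2 ≤ C * n ^ 3 * (Nat.log 2 n + 1) ^ 3 ∧
        ∀ (m : ℕ) (P : LD n m), P.Valid → P.Computes F.eval → 2 ^ (n - k) ≤ m :=
  ⟨10 ^ 12, lin_main⟩
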